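import Mathlib

/-!
# MP_59b615_al: the profinite coarse structures on the integers are not given by word metrics

For every non-empty set of primes `Q` and every `S ⊆ ℤ` the coarse groups `(ℤ, E_Q)` and
`(ℤ, E_Cay(S))` are not coarsely isomorphic. In fact `(ℤ, E_Q)` is not coarsely equivalent to any
extended pseudometric space.

Idea: a structure given by an extended pseudometric is generated by countably many families, while
the compact subsets of `(ℤ, τ_Q)` are not, up to translation, contained in countably many compact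
sets: a diagonal compact set is built from finite subsets of deeper and deeper subgroups.
-/

set_option autoImplicit false

open Set Topology Filter
open scoped ENNReal Pointwise

namespace Pool.Agent.Results.MP_59b615_al.NotWordMetric

/-- `Q^*`: the positive integers all of whose prime factors lie in `Q`. -/
def Star (Q : Set ℕ) : Set ℕ := {m | 0 < m ∧ ∀ p : ℕ, p.Prime → p ∣ m → p ∈ Q}

/-- The topology `τ_Q` of `ℤ`: the topology induced by the map to the product of the discrete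
groups `ℤ/mℤ`, `m ∈ Q^*` (whose image lies in the inverse limit). -/
@[reducible] def tau (Q : Set ℕ) : TopologicalSpace ℤ :=
  TopologicalSpace.induced (fun (n : ℤ) (m : Star Q) => (n : ZMod (m : ℕ))) inferInstance

/-- A coarse structure on `X`, given by its uniformly bounded families `(A_i)_{i ∈ I}`. -/
abbrev Coarse (X : Type) : Type 1 := ∀ I : Type, (I → Set X) → Prop

/-- The structure `E_Q`: `(A_i)` is uniformly bounded iff there are a `τ_Q`-compact `K` and integers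
`k_i` with `A_i ⊆ k_i + K`. -/
def profinite (Q : Set ℕ) : Coarse ℤ := fun I A =>
  ∃ K : Set ℤ, @IsCompact ℤ (tau Q) K ∧ ∃ k : I → ℤ, ∀ i, A i ⊆ (fun x => k i + x) '' K

/-- The structure of an extended (pseudo)metric space: the members of the family have uniformly
bounded diameter. -/
def ofDist {X : Type} (d : X → X → ℝ≥0∞) : Coarse X := fun _ A =>
  ∃ N : ℕ, ∀ i, ∀ x ∈ A i, ∀ y ∈ A i, d x y ≤ N

/-- `d_S(n, m)`: the least number of elements of `S ∪ (-S)`, with repetition, summing to `n - m`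
(`∞` if there are none). -/
noncomputable def wordDist (S : Set ℤ) (n m : ℤ) : ℝ≥0∞ :=
  ⨅ (l : List ℤ) (_ : ∀ s ∈ l, s ∈ S ∪ -S) (_ : l.sum = n - m), (l.length : ℝ≥0∞)

/-- The structure `E_Cay(S)`. -/
noncomputable def cayley (S : Set ℤ) : Coarse ℤ := ofDist (wordDist S)

/-- `f` sends uniformly bounded families to uniformly bounded families. -/
def Controlled {X Y : Type} (E : Coarse X) (E' : Coarse Y) (f : X → Y) : Prop :=
  ∀ (I : Type) (A : I → Set X), E I A → E' I (fun i => f '' A i)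

/-- `f` and `f'` are close. -/
def Close {X Y : Type} (E : Coarse Y) (f f' : X → Y) : Prop := E X (fun x => {f x, f' x})

/-- `(ℤ, E)` and `(ℤ, E')` are coarsely isomorphic coarse groups. -/
def CoarselyIsomorphic (E E' : Coarse ℤ) : Prop :=
  ∃ f g : ℤ → ℤ, Controlled E E' f ∧
    E' (ℤ × ℤ) (fun q => {f (q.1 + q.2), f q.1 + f q.2}) ∧
    Controlled E' E g ∧ Close E (g ∘ f) id ∧ Close E' (f ∘ g) id

/-- `(X, E)` and `(Y, E')` are coarsely equivalent. -/
def CoarselyEquivalent {X Y : Type} (E : Coarse X) (E' : Coarse Y) : Prop :=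
  ∃ (f : X → Y) (g : Y → X), Controlled E E' f ∧ Controlled E' E g ∧
    Close E (g ∘ f) id ∧ Close E' (f ∘ g) id

/-! ### proof -/

lemma one_mem (Q : Set ℕ) : 1 ∈ Star Q :=
  ⟨one_pos, fun _ hp h => absurd (Nat.dvd_one.1 h) hp.ne_one⟩

lemma mul_mem {Q : Set ℕ} {m n : ℕ} (hm : m ∈ Star Q) (hn : n ∈ Star Q) : m * n ∈ Star Q :=
  ⟨Nat.mul_pos hm.1 hn.1, fun p hp h => ((hp.dvd_mul).1 h).elim (hm.2 p hp) (hn.2 p hp)⟩

lemma prod_mem {Q : Set ℕ} {ι : Type*} (s : Finset ι) (f : ι → ℕ) (h : ∀ i ∈ s, f i ∈ Star Q) :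
    ∏ i ∈ s, f i ∈ Star Q := by
  classical
  induction s using Finset.induction_on with
  | empty => simpa using one_mem Q
  | insert a s ha ih =>
    rw [Finset.prod_insert ha]
    exact mul_mem (h a (Finset.mem_insert_self a s)) (ih fun i hi => h i (Finset.mem_insert_of_mem hi))

lemma pow_mem' {Q : Set ℕ} {p : ℕ} (hp : p.Prime) (hpQ : p ∈ Q) (k : ℕ) : p ^ k ∈ Star Q :=
  ⟨pow_pos hp.pos k, fun q hq h => by
    have := (Nat.prime_dvd_prime_iff_eq hq hp).1 (hq.dvd_of_dvd_pow h)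
    rwa [this]⟩

/-- neighbourhoods contain cosets -/
lemma nbhd (Q : Set ℕ) (U : Set ℤ) (hU : IsOpen[tau Q] U) (x : ℤ) (hx : x ∈ U) :
    ∃ m ∈ Star Q, ∀ y : ℤ, (m : ℤ) ∣ y - x → y ∈ U := by
  classical
  obtain ⟨V, hV, rfl⟩ := isOpen_induced_iff.1 hU
  obtain ⟨I, u, hu, hIu⟩ := isOpen_pi_iff.1 hV _ hx
  refine ⟨∏ i ∈ I, (i : ℕ), prod_mem I _ fun i _ => i.2, fun y hy => ?_⟩
  apply hIu
  intro i hi
  have h1 : ((i : ℕ) : ℤ) ∣ y - x :=
    (Int.natCast_dvd_natCast.2 (Finset.dvd_prod_of_mem (fun i : Star Q => (i : ℕ)) hi)).trans hy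
  have h2 : (y : ZMod (i : ℕ)) = (x : ZMod (i : ℕ)) := by
    rw [eq_comm, ZMod.intCast_eq_intCast_iff_dvd_sub]
    exact h1
  show (y : ZMod (i : ℕ)) ∈ u i
  rw [h2]
  exact (hu i hi).2

lemma coset_clopen (Q : Set ℕ) (m : ℕ) (hm : m ∈ Star Q) (a : ℤ) :
    @IsClopen ℤ (tau Q) {x | (m : ℤ) ∣ x - a} := by
  let _ := tau Q
  have h0 : Continuous (fun (n : ℤ) (m : Star Q) => (n : ZMod (m : ℕ))) := continuous_induced_dom
  have h1 : Continuous (fun n : ℤ => (n : ZMod m)) := (continuous_pi_iff.1 h0) ⟨m, hm⟩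
  have h2 : {x : ℤ | (m : ℤ) ∣ x - a} = (fun n : ℤ => (n : ZMod m)) ⁻¹' {(a : ZMod m)} := by
    ext x
    rw [mem_ofPred_eq, mem_preimage, mem_singleton_iff, eq_comm, ZMod.intCast_eq_intCast_iff_dvd_sub]
  rw [h2]
  exact (isClopen_discrete _).preimage h1

lemma top_group (Q : Set ℕ) : @IsTopologicalAddGroup ℤ (tau Q) _ := by
  let φ : ℤ →+ (∀ m : Star Q, ZMod (m : ℕ)) :=
    { toFun := fun n m => (n : ZMod (m : ℕ))
      map_zero' := by funext m; simp
      map_add' := by intro a b; funext m; simp }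
  exact topologicalAddGroup_induced φ

lemma t2 {Q : Set ℕ} {p : ℕ} (hp : p.Prime) (hpQ : p ∈ Q) : @T2Space ℤ (tau Q) := by
  let _ := tau Q
  refine T2Space.of_injective_continuous (f := fun (n : ℤ) (m : Star Q) => (n : ZMod (m : ℕ)))
    ?_ continuous_induced_dom
  intro x y hxy
  by_contra hne
  obtain ⟨k, hk⟩ : ∃ k : ℕ, (y - x).natAbs < p ^ k := ⟨_, Nat.lt_pow_self hp.one_lt⟩
  have h1 := congrFun hxy ⟨p ^ k, pow_mem' hp hpQ k⟩
  have h2 : ((p ^ k : ℕ) : ℤ) ∣ y - x := (ZMod.intCast_eq_intCast_iff_dvd_sub x y (p ^ k)).1 h1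
  have h3 : p ^ k ∣ (y - x).natAbs := Int.natCast_dvd.1 h2
  have h4 : (y - x).natAbs ≠ 0 := by
    rw [Int.natAbs_ne_zero]; intro h; exact hne (by omega)
  exact absurd (Nat.le_of_dvd (Nat.pos_of_ne_zero h4) h3) (by omega)

/-- `ℤ` is not `τ_Q`-compact -/
lemma not_compact {Q : Set ℕ} {p : ℕ} (hp : p.Prime) (hpQ : p ∈ Q) :
    ¬ @CompactSpace ℤ (tau Q) := by
  let _ := tau Q
  intro hc
  have := t2 hp hpQ
  have h1 : ⋃ n : ℤ, ({n} : Set ℤ) = univ := by ext x; simp
  obtain ⟨n, y, hy⟩ := nonempty_interior_of_iUnion_of_closed (fun n : ℤ => isClosed_singleton) h1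
  obtain ⟨m, hm, h2⟩ := nbhd Q _ isOpen_interior y hy
  have h3 := interior_subset hy
  have h4 := interior_subset (h2 (y + m) (by simp))
  rw [mem_singleton_iff] at h3 h4
  have := hm.1
  omega

/-- a finite subset of `mℤ` in no translate of `K` -/
lemma exists_fin {Q : Set ℕ} {p : ℕ} (hp : p.Prime) (hpQ : p ∈ Q) (m : ℕ) (hm : m ∈ Star Q)
    (K : Set ℤ) (hK : @IsCompact ℤ (tau Q) K) :
    ∃ F : Finset ℤ, (∀ x ∈ F, (m : ℤ) ∣ x) ∧ ∀ k : ℤ, ¬ (F : Set ℤ) ⊆ (fun x => k + x) '' K := by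
  classical
  let _ := tau Q
  have := t2 hp hpQ
  have := top_group Q
  by_contra hcon
  push Not at hcon
  have hKc : IsClosed K := hK.isClosed
  let t : ℤ → Set ℤ := fun x => {k | (m : ℤ) * x - k ∈ K}
  have ht : ∀ x, IsClosed (t x) := fun x => hKc.preimage (continuous_const.sub continuous_id)
  have hs : IsCompact {k : ℤ | -k ∈ K} := by
    have : {k : ℤ | -k ∈ K} = (fun x => -x) '' K := by
      ext k
      constructor
      · intro h; exact ⟨-k, h, neg_neg k⟩
      · rintro ⟨x, hx, rfl⟩; simpa using hx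
    rw [this]
    exact hK.image continuous_neg
  obtain ⟨k, -, hk⟩ := hs.inter_iInter_nonempty t ht (by
    intro u
    obtain ⟨k, hk⟩ := hcon (insert 0 (u.image fun x => (m : ℤ) * x)) (by
      intro x hx
      rw [Finset.mem_insert, Finset.mem_image] at hx
      rcases hx with rfl | ⟨y, _, rfl⟩
      · exact dvd_zero _
      · exact dvd_mul_right _ _)
    refine ⟨k, ?_, ?_⟩
    · obtain ⟨x, hx, hx'⟩ := hk (Finset.mem_coe.2 (Finset.mem_insert_self 0 _))
      have : -k = x := by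
        have : k + x = 0 := hx'
        omega
      show -k ∈ K
      rw [this]; exact hx
    · rw [mem_iInter₂]
      intro y hy
      obtain ⟨x, hx, hx'⟩ := hk (Finset.mem_coe.2 (Finset.mem_insert_of_mem (Finset.mem_image_of_mem _ hy)))
      have : (m : ℤ) * y - k = x := by
        have : k + x = (m : ℤ) * y := hx'
        omega
      show (m : ℤ) * y - k ∈ K
      rw [this]; exact hx)
  rw [mem_iInter] at hk
  have hmZ : IsCompact {x : ℤ | (m : ℤ) ∣ x - 0} := by
    refine IsCompact.of_isClosed_subset (hK.image (f := fun x => k + x) (continuous_const.add continuous_id))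
      (coset_clopen Q m hm 0).1 ?_
    rintro x hx
    obtain ⟨y, hy⟩ := hx
    refine ⟨(m : ℤ) * y - k, hk y, ?_⟩
    show k + ((m : ℤ) * y - k) = x
    omega
  apply not_compact hp hpQ
  refine ⟨?_⟩
  have h1 : (univ : Set ℤ) = ⋃ j ∈ Finset.range m, (fun x => (j : ℤ) + x) '' {x : ℤ | (m : ℤ) ∣ x - 0} := by
    ext x
    simp only [mem_univ, true_iff, mem_iUnion]
    have hm0 : (m : ℤ) ≠ 0 := by have := hm.1; omega
    refine ⟨(x % m).toNat, ?_, x - x % m, ?_, ?_⟩
    · rw [Finset.mem_range]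
      have h2 := Int.emod_lt_of_pos x (by have := hm.1; omega : (0 : ℤ) < m)
      have h3 := Int.emod_nonneg x hm0
      omega
    · show (m : ℤ) ∣ (x - x % m) - 0
      rw [sub_zero]
      exact Int.dvd_self_sub_emod
    · show (((x % m).toNat : ℕ) : ℤ) + (x - x % m) = x
      have h3 := Int.emod_nonneg x hm0
      omega
  rw [h1]
  exact (Finset.range m).isCompact_biUnion fun j _ => hmZ.image (continuous_const.add continuous_id)

/-- compact sets are not countably generated -/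
lemma diag {Q : Set ℕ} {p : ℕ} (hp : p.Prime) (hpQ : p ∈ Q) (K : ℕ → Set ℤ)
    (hK : ∀ n, @IsCompact ℤ (tau Q) (K n)) :
    ∃ L : Set ℤ, @IsCompact ℤ (tau Q) L ∧ ∀ n k, ¬ L ⊆ (fun x => k + x) '' K n := by
  classical
  let _ := tau Q
  let M : ℕ → ℕ := fun n => ∏ i ∈ (Finset.range (n + 1)).filter (fun i => i ∈ Star Q), i
  have hM : ∀ n, M n ∈ Star Q := fun n => prod_mem _ _ fun i hi => (Finset.mem_filter.1 hi).2
  choose F hF1 hF2 using fun n => exists_fin hp hpQ (M n) (hM n) (K n) (hK n)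
  refine ⟨insert 0 (⋃ n, (F n : Set ℤ)), ?_, fun n k h => hF2 n k (Subset.trans ?_ h)⟩
  · rw [isCompact_iff_ultrafilter_le_nhds]
    intro f hf
    by_cases h0 : (f : Filter ℤ) ≤ 𝓝 0
    · exact ⟨0, mem_insert _ _, h0⟩
    · obtain ⟨U, hU, hUf⟩ := Filter.not_le.1 h0
      obtain ⟨V, hVU, hVo, hV0⟩ := mem_nhds_iff.1 hU
      obtain ⟨m, hm, hmV⟩ := nbhd Q V hVo 0 hV0
      have hfin : ((insert 0 (⋃ n, (F n : Set ℤ))) \ U).Finite := by
        refine Set.Finite.subset (s := ⋃ n ∈ Finset.range m, (F n : Set ℤ))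
          ((Finset.range m).finite_toSet.biUnion fun n _ => (F n).finite_toSet) ?_
        rintro x ⟨hx1, hx2⟩
        rcases hx1 with rfl | hx1
        · exact absurd (hVU hV0) hx2
        · rw [mem_iUnion] at hx1
          obtain ⟨n, hn⟩ := hx1
          rw [mem_iUnion₂]
          refine ⟨n, ?_, hn⟩
          rw [Finset.mem_range]
          by_contra hnm
          push Not at hnm
          apply hx2
          apply hVU
          apply hmV
          rw [sub_zero]
          refine dvd_trans ?_ (hF1 n x hn)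
          rw [Int.natCast_dvd_natCast]
          exact Finset.dvd_prod_of_mem (fun i => i)
            (Finset.mem_filter.2 ⟨Finset.mem_range.2 (by omega), hm⟩)
      have hmem : (insert 0 (⋃ n, (F n : Set ℤ))) \ U ∈ f := by
        refine Filter.inter_mem (le_principal_iff.1 hf) ?_
        exact Ultrafilter.compl_mem_iff_notMem.2 hUf
      obtain ⟨x, hx, hfx⟩ := Ultrafilter.eq_pure_of_finite_mem hfin hmem
      refine ⟨x, hx.1, ?_⟩
      rw [hfx]
      exact pure_le_nhds x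
  · intro x hx
    exact mem_insert_of_mem _ (mem_iUnion.2 ⟨n, hx⟩)

/-- main lemma -/
lemma core {Q : Set ℕ} {p : ℕ} (hp : p.Prime) (hpQ : p ∈ Q) {Y : Type} (d : Y → Y → ℝ≥0∞)
    (f : ℤ → Y) (g : Y → ℤ) (hf : Controlled (profinite Q) (ofDist d) f)
    (hg : Controlled (ofDist d) (profinite Q) g) (hc : Close (profinite Q) (g ∘ f) id) : False := by
  classical
  let _ := tau Q
  have := t2 hp hpQ
  have := top_group Q
  have h1 : ∀ n : ℕ, ∃ K : Set ℤ, IsCompact K ∧ ∀ A : Set Y, (∀ x ∈ A, ∀ y ∈ A, d x y ≤ n) →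
      ∃ k : ℤ, g '' A ⊆ (fun x => k + x) '' K := by
    intro n
    obtain ⟨K, hK, k, hk⟩ := hg {A : Set Y // ∀ x ∈ A, ∀ y ∈ A, d x y ≤ n} (fun A => A.1)
      ⟨n, fun A => A.2⟩
    exact ⟨K, hK, fun A hA => ⟨k ⟨A, hA⟩, hk ⟨A, hA⟩⟩⟩
  choose K hK hKA using h1
  obtain ⟨L, hL, l, hl⟩ := hc
  obtain ⟨M, hM, hM2⟩ := diag hp hpQ (fun n => K n + (L + -L)) (fun n => (hK n).add (hL.add hL.neg))
  obtain ⟨n, hn⟩ := hf Unit (fun _ => M) ⟨M, hM, fun _ => 0, fun _ x hx => ⟨x, hx, zero_add x⟩⟩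
  obtain ⟨k, hk⟩ := hKA n (f '' M) (hn ())
  refine hM2 n k ?_
  intro x hx
  obtain ⟨y, hy, hy'⟩ := hk ⟨f x, ⟨x, hx, rfl⟩, rfl⟩
  obtain ⟨a, ha, ha'⟩ := hl x (by simp : (g ∘ f) x ∈ ({(g ∘ f) x, id x} : Set ℤ))
  obtain ⟨b, hb, hb'⟩ := hl x (by simp : id x ∈ ({(g ∘ f) x, id x} : Set ℤ))
  have e1 : k + y = g (f x) := hy'
  have e2 : l x + a = g (f x) := ha'
  have e3 : l x + b = x := hb'
  refine ⟨y + (b + -a), ?_, ?_⟩
  · exact Set.add_mem_add hy (Set.add_mem_add hb (Set.neg_mem_neg.2 ha))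
  · show k + (y + (b + -a)) = x
    omega

/-- **Theorem.** For every non-empty set of primes `Q` and every `S ⊆ ℤ` the coarse groups
`(ℤ, E_Q)` and `(ℤ, E_Cay(S))` are not coarsely isomorphic; in fact `(ℤ, E_Q)` is not coarsely
equivalent to any extended pseudometric space. -/
theorem result (Q : Set ℕ) (hQ : ∀ p ∈ Q, p.Prime) (hne : Q.Nonempty) :
    (∀ S : Set ℤ, ¬ CoarselyIsomorphic (profinite Q) (cayley S)) ∧
    ∀ (X : Type) [PseudoEMetricSpace X],
      ¬ CoarselyEquivalent (profinite Q) (ofDist (fun x y : X => edist x y)) := by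
  obtain ⟨p, hp⟩ := hne
  refine ⟨?_, ?_⟩
  · rintro S ⟨f, g, h1, -, h3, h4, -⟩
    exact core (hQ p hp) hp _ f g h1 h3 h4
  · rintro X _ ⟨f, g, h1, h2, h3, -⟩
    exact core (hQ p hp) hp _ f g h1 h2 h3

end Pool.Agent.Results.MP_59b615_al.NotWordMetric
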